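import Pool.Agent.N463.MI.Stm

/-!
Project MI, part A03: splitting the product at `K`.
-/

set_option autoImplicit false

noncomputable section

namespace Pool.Agent.N711.MI.A03

open Finset Pool.Agent.N463.MI

lemma mult (z q : ℂ) (hq : ‖q‖ < 1) : Multipliable (fun k : ℕ => 1 + z * q ^ k) := by
  apply multipliable_one_add_of_summable
  simp only [norm_mul, norm_pow]
  exact (summable_geometric_of_lt_one (norm_nonneg _) hq).mul_left _

lemma mult' (z q : ℂ) (hq : ‖q‖ < 1) (K : ℕ) : Multipliable (fun k : ℕ => 1 + z * q ^ (k + K)) := by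
  have h : (fun k : ℕ => 1 + z * q ^ (k + K)) = fun k : ℕ => 1 + (z * q ^ K) * q ^ k := by
    funext k
    rw [pow_add]
    ring
  rw [h]
  exact mult _ q hq

lemma split0 (z q : ℂ) (hq : ‖q‖ < 1) (K : ℕ) : ∏' k : ℕ, (1 + z * q ^ k) =
    (∏ k ∈ range K, (1 + z * q ^ k)) * ∏' k : ℕ, (1 + (z * q ^ K) * q ^ k) := by
  have h := (mult' z q hq K).prod_mul_tprod_nat_mul' (f := fun k : ℕ => 1 + z * q ^ k) (k := K)
  rw [← h]
  congr 2
  funext k
  rw [pow_add]
  ring

lemma PP_eq (z q : ℂ) : PP z q = ∏' k : ℕ, (1 + (z * q) * q ^ k) := by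
  unfold PP
  congr 1
  funext k
  rw [pow_succ]
  ring

lemma zero_mul_PP (z q : ℂ) (hq : ‖q‖ < 1) : (1 + z) * PP z q = ∏' k : ℕ, (1 + z * q ^ k) := by
  rw [split0 z q hq 1, PP_eq, Finset.prod_range_one, pow_zero, mul_one, pow_one]

lemma sum_id (K : ℕ) : ∑ k ∈ range K, (k + 1) = K * (K + 1) / 2 := by
  have h := Finset.sum_range_succ' (fun k => k) K
  have h2 := Finset.sum_range_id (K + 1)
  simp only [add_zero] at h
  rw [← h, h2, Nat.add_sub_cancel, mul_comm]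

theorem t_A03 : A03 := by
  intro a K θ ha hK t ht ζ hζ
  have ha0 : (0 : ℝ) < a := by linarith
  have haC : (a : ℂ) ≠ 0 := Complex.ofReal_ne_zero.2 ha0.ne'
  have hK0 : (0 : ℝ) < K := by exact_mod_cast hK
  have hKC : (K : ℂ) ≠ 0 := by exact_mod_cast hK0.ne'
  have hlog : 0 < Real.log a := Real.log_pos ha
  have ht0 : 0 < t := by rw [ht]; positivity
  set q : ℂ := pt t θ with hq
  have hq1 : ‖q‖ < 1 := by
    rw [hq]
    unfold pt
    rw [Complex.norm_exp]
    simp only [Complex.add_re, Complex.neg_re, Complex.ofReal_re, Complex.mul_re, Complex.I_re,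
      mul_zero, Complex.ofReal_im, Complex.I_im, mul_one, sub_zero, add_zero]
    rw [Real.exp_lt_one_iff]
    linarith
  have hq0 : q ≠ 0 := Complex.exp_ne_zero _
  have hζ0 : ζ ≠ 0 := by rw [hζ]; exact Complex.exp_ne_zero _
  have hqK : (a : ℂ) * q ^ K = ζ := by
    rw [hq, hζ]
    unfold pt
    rw [← Complex.exp_nat_mul]
    have h1 : (K : ℂ) * (-(t : ℂ) + (θ : ℂ) * Complex.I) =
        -((Real.log a : ℝ) : ℂ) + ((K * θ : ℝ) : ℂ) * Complex.I := by
      rw [ht]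
      push_cast
      field_simp
    rw [h1, Complex.exp_add, Complex.exp_neg, ← Complex.ofReal_exp, Real.exp_log ha0]
    field_simp
  -- (1)
  have s1 : PP (a : ℂ) q = (∏ k ∈ range K, (1 + a * q ^ (k + 1))) * PP ζ q := by
    rw [PP_eq, split0 _ q hq1 K, PP_eq]
    congr 1
    · refine Finset.prod_congr rfl fun k _ => ?_
      rw [pow_succ]; ring
    · congr 1
      funext k
      rw [← hqK]; ring
  -- (2)
  have s2 : ∏ k ∈ range K, (1 + a * q ^ (k + 1)) =
      (a : ℂ) ^ K * q ^ (K * (K + 1) / 2) * ∏ k ∈ range K, (1 + ζ⁻¹ * q ^ k) := by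
    have h1 : ∀ k ∈ range K, (1 + a * q ^ (k + 1)) =
        (a * q ^ (k + 1)) * (1 + ζ⁻¹ * q ^ (K - 1 - k)) := by
      intro k hk
      have hk' := Finset.mem_range.1 hk
      have h2 : a * q ^ (k + 1) * (ζ⁻¹ * q ^ (K - 1 - k)) = 1 := by
        have h3 : q ^ (k + 1) * q ^ (K - 1 - k) = q ^ K := by
          rw [← pow_add]; congr 1; omega
        calc a * q ^ (k + 1) * (ζ⁻¹ * q ^ (K - 1 - k))
            = a * (q ^ (k + 1) * q ^ (K - 1 - k)) * ζ⁻¹ := by ring
          _ = 1 := by rw [h3, hqK, mul_inv_cancel₀ hζ0]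
      rw [mul_add, h2, mul_one, add_comm]
    rw [Finset.prod_congr rfl h1, Finset.prod_mul_distrib, Finset.prod_mul_distrib,
      Finset.prod_const, Finset.card_range, Finset.prod_pow_eq_pow_sum, sum_id,
      Finset.prod_range_reflect (fun k => 1 + ζ⁻¹ * q ^ k) K]
  -- (3)
  have s3 : (1 + ζ⁻¹) * PP ζ⁻¹ q =
      (∏ k ∈ range K, (1 + ζ⁻¹ * q ^ k)) * ((1 + (a : ℂ)⁻¹) * PP ((a : ℂ)⁻¹) q) := by
    rw [zero_mul_PP _ q hq1, split0 _ q hq1 K, zero_mul_PP _ q hq1]
    congr 2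
    funext k
    have h1 : ζ⁻¹ * q ^ K = (a : ℂ)⁻¹ := by
      rw [← hqK]
      have : q ^ K ≠ 0 := pow_ne_zero _ hq0
      field_simp
    rw [h1]
  rw [s1, s2, s3]
  ring

end Pool.Agent.N711.MI.A03
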